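import Pool.Agent.Lib.RJK.Num

/-!
# Superadditivity of the Ramsey numbers `R(3, K_k - e)`

`RJ k = R(3, K_k - e)` and `RK k = R(3, K_k)`, defined as in the frozen statements of Q1.
-/

set_option autoImplicit false

namespace Pool.Agent.Results.MP_6d9ead_co.NearComplete

open Pool.Agent.RJK

/-- `R(3, J_s) + R(3, J_t) + s - 3 ≤ R(3, J_(s+t-1))` for `2 ≤ s ≤ t`, with one more on the left if
`s < t` and Q1's inequality `R(3, K_(s-1)) < R(3, J_s)` holds at `s`. For `s = 2` this is
`R(3, J_(k+1)) ≥ R(3, J_k) + 2`, `k ≥ 3`. -/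
theorem result : ∀ s t : ℕ, 2 ≤ s → s ≤ t →
    RJ s + RJ t + s + (if s < t ∧ RK (s - 1) < RJ s then 1 else 0) ≤ RJ (s + t - 1) + 3 := by
  intro s t hs hst
  split_ifs with h
  · have h1 := add_le' hs h.1 h.2
    omega
  · exact add_le hs hst

end Pool.Agent.Results.MP_6d9ead_co.NearComplete
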